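import Pool.Agent.W407.LP.SS2

/-!
# LP-SS: sum of the squared influences
-/

set_option autoImplicit false

namespace Pool.Agent.W407.LP

open Pool.Agent.W533.LP MeasureTheory ProbabilityTheory Finset

section comb

/-- sum over pairs on a common antidiagonal -/
theorem pairs (n : ℕ) (b : ℕ → ℕ → ℝ) (hb : ∀ i j, 0 ≤ b i j) (D : ℝ)
    (hD : ∀ k, ∑ v ∈ (range n ×ˢ range n).filter (fun v => v.1 + v.2 = k), b v.1 v.2 ≤ D) :
    ∑ u ∈ range n ×ˢ range n, ∑ v ∈ (range n ×ˢ range n).filter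
      (fun v => v.1 + v.2 = u.1 + u.2), b u.1 u.2 * b v.1 v.2 ≤ 2 * n * D ^ 2 := by
  have hD0 : 0 ≤ D := (Finset.sum_nonneg fun v _ => hb _ _).trans (hD 0)
  have h1 : ∑ u ∈ range n ×ˢ range n, ∑ v ∈ (range n ×ˢ range n).filter
      (fun v => v.1 + v.2 = u.1 + u.2), b u.1 u.2 * b v.1 v.2 ≤
      ∑ u ∈ range n ×ˢ range n, b u.1 u.2 * D := by
    refine Finset.sum_le_sum fun u _ => ?_
    rw [← Finset.mul_sum]
    exact mul_le_mul_of_nonneg_left (hD _) (hb _ _)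
  refine h1.trans ?_
  rw [← Finset.sum_mul]
  have h2 : ∑ u ∈ range n ×ˢ range n, b u.1 u.2 ≤ 2 * n * D := by
    have h3 : ∀ u ∈ range n ×ˢ range n, u.1 + u.2 ∈ range (2 * n) := by
      intro u hu
      rw [Finset.mem_product, Finset.mem_range, Finset.mem_range] at hu
      rw [Finset.mem_range]
      omega
    rw [← Finset.sum_fiberwise_of_maps_to h3]
    refine (Finset.sum_le_sum fun k _ => hD k).trans ?_
    rw [Finset.sum_const, Finset.card_range, nsmul_eq_mul]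
    push_cast
    exact le_rfl
  calc (∑ u ∈ range n ×ˢ range n, b u.1 u.2) * D ≤ 2 * n * D * D :=
        mul_le_mul_of_nonneg_right h2 hD0
    _ = _ := by ring

theorem cross (n N s0 : ℕ) (b : ℕ → ℕ → ℝ) (hb : ∀ i j, 0 ≤ b i j)
    (hout : ∀ i j, ¬ (i < n ∧ j < n) → b i j = 0) (D : ℝ)
    (hD : ∀ k, ∑ v ∈ (range n ×ˢ range n).filter (fun v => v.1 + v.2 = k), b v.1 v.2 ≤ D) :
    ∑ s ∈ Icc 1 s0, ∑ w ∈ range N ×ˢ range N,
      (if s ≤ w.2 then b w.1 (w.2 - s) else 0) * (if s ≤ w.1 then b (w.1 - s) w.2 else 0) ≤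
      2 * n * D ^ 2 := by
  classical
  refine le_trans ?_ (pairs n b hb D hD)
  obtain ⟨g, hg⟩ : ∃ g : ℕ × (ℕ × ℕ) → ℝ, g = fun t =>
      (if t.1 ≤ t.2.2 then b t.2.1 (t.2.2 - t.1) else 0) *
        (if t.1 ≤ t.2.1 then b (t.2.1 - t.1) t.2.2 else 0) := ⟨_, rfl⟩
  obtain ⟨Q, hQ⟩ : ∃ Q : Finset (ℕ × (ℕ × ℕ)), Q = (Icc 1 s0 ×ˢ (range N ×ˢ range N)).filter
      (fun t => t.1 ≤ t.2.2 ∧ t.1 ≤ t.2.1 ∧ t.2.1 < n ∧ t.2.2 < n) := ⟨_, rfl⟩
  obtain ⟨φ, hφ⟩ : ∃ φ : ℕ × (ℕ × ℕ) → (ℕ × ℕ) × (ℕ × ℕ), φ = fun t =>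
      ((t.2.1, t.2.2 - t.1), (t.2.1 - t.1, t.2.2)) := ⟨_, rfl⟩
  have h1 : ∑ s ∈ Icc 1 s0, ∑ w ∈ range N ×ˢ range N,
      (if s ≤ w.2 then b w.1 (w.2 - s) else 0) * (if s ≤ w.1 then b (w.1 - s) w.2 else 0) =
      ∑ t ∈ Icc 1 s0 ×ˢ (range N ×ˢ range N), g t := by
    rw [Finset.sum_product, hg]
  have h2 : ∑ t ∈ Icc 1 s0 ×ˢ (range N ×ˢ range N), g t = ∑ t ∈ Q, g t := by
    rw [hQ]
    symm
    apply Finset.sum_subset (Finset.filter_subset _ _)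
    intro t ht ht2
    rw [Finset.mem_filter, not_and] at ht2
    have h3 := ht2 ht
    rw [hg]
    beta_reduce
    by_cases h4 : t.1 ≤ t.2.2
    · by_cases h5 : t.1 ≤ t.2.1
      · rw [if_pos h4, if_pos h5]
        by_cases h6 : t.2.1 < n
        · have h7 : ¬ t.2.2 < n := fun h7 => h3 ⟨h4, h5, h6, h7⟩
          rw [hout (t.2.1 - t.1) t.2.2 (fun h => h7 h.2), mul_zero]
        · rw [hout t.2.1 (t.2.2 - t.1) (fun h => h6 h.1), zero_mul]
      · rw [if_neg h5, mul_zero]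
    · rw [if_neg h4, zero_mul]
  have h3 : ∑ t ∈ Q, g t = ∑ p ∈ Q.image φ, b p.1.1 p.1.2 * b p.2.1 p.2.2 := by
    rw [Finset.sum_image]
    · refine Finset.sum_congr rfl fun t ht => ?_
      rw [hQ, Finset.mem_filter] at ht
      rw [hg, hφ]
      beta_reduce
      rw [if_pos ht.2.1, if_pos ht.2.2.1]
    · intro t ht t' ht' he
      rw [Finset.mem_coe, hQ, Finset.mem_filter] at ht ht'
      rw [hφ] at he
      simp only [Prod.mk.injEq] at he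
      obtain ⟨⟨e1, e2⟩, e3, e4⟩ := he
      obtain ⟨_, a1, a2, _, _⟩ := ht
      obtain ⟨_, a1', a2', _, _⟩ := ht'
      apply Prod.ext
      · omega
      · exact Prod.ext e1 e4
  rw [h1, h2, h3, Finset.sum_sigma' (range n ×ˢ range n) (fun u => (range n ×ˢ range n).filter
      (fun v => v.1 + v.2 = u.1 + u.2)) (fun u v => b u.1 u.2 * b v.1 v.2)]
  have h4 : ∑ x ∈ (range n ×ˢ range n).sigma (fun u => (range n ×ˢ range n).filter
      (fun v => v.1 + v.2 = u.1 + u.2)), b x.1.1 x.1.2 * b x.2.1 x.2.2 =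
      ∑ p ∈ ((range n ×ˢ range n) ×ˢ (range n ×ˢ range n)).filter
        (fun p => p.2.1 + p.2.2 = p.1.1 + p.1.2), b p.1.1 p.1.2 * b p.2.1 p.2.2 := by
    refine Finset.sum_nbij' (fun x => (x.1, x.2)) (fun p => ⟨p.1, p.2⟩) ?_ ?_ ?_ ?_ ?_
    · intro x hx
      rw [Finset.mem_sigma, Finset.mem_filter] at hx
      exact Finset.mem_filter.2 ⟨Finset.mem_product.2 ⟨hx.1, hx.2.1⟩, hx.2.2⟩
    · intro p hp
      rw [Finset.mem_filter, Finset.mem_product] at hp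
      exact Finset.mem_sigma.2 ⟨hp.1.1, Finset.mem_filter.2 ⟨hp.1.2, hp.2⟩⟩
    · intro x _
      rfl
    · intro p _
      rfl
    · intro x _
      rfl
  rw [h4]
  apply Finset.sum_le_sum_of_subset_of_nonneg
  · intro p hp
    rw [Finset.mem_image] at hp
    obtain ⟨t, ht, rfl⟩ := hp
    rw [hQ, Finset.mem_filter] at ht
    obtain ⟨_, a1, a2, a3, a4⟩ := ht
    rw [hφ]
    simp only [Finset.mem_filter, Finset.mem_product, Finset.mem_range]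
    omega
  · intro p _ _
    exact mul_nonneg (hb _ _) (hb _ _)

/-- sums over shifted boxes -/
theorem shsum (n N s : ℕ) (h : n + s ≤ N) (A : ℕ → ℕ → ℝ) :
    ∑ v ∈ range n ×ˢ range n, A v.1 v.2 ^ 2 ≤
      ∑ w ∈ range N ×ˢ range N, (if s ≤ w.2 then A w.1 (w.2 - s) else 0) ^ 2 ∧
    ∑ v ∈ range n ×ˢ range n, A v.1 v.2 ^ 2 ≤
      ∑ w ∈ range N ×ˢ range N, (if s ≤ w.1 then A (w.1 - s) w.2 else 0) ^ 2 := by
  classical
  constructor
  · have h1 : ∑ v ∈ range n ×ˢ range n, A v.1 v.2 ^ 2 =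
        ∑ w ∈ (range n ×ˢ range n).image (fun v => (v.1, v.2 + s)),
          (if s ≤ w.2 then A w.1 (w.2 - s) else 0) ^ 2 := by
      rw [Finset.sum_image]
      · refine Finset.sum_congr rfl fun v _ => ?_
        rw [if_pos (by omega), Nat.add_sub_cancel]
      · intro v _ v' _ he
        simp only [Prod.mk.injEq] at he
        exact Prod.ext he.1 (by omega)
    rw [h1]
    apply Finset.sum_le_sum_of_subset_of_nonneg
    · intro w hw
      rw [Finset.mem_image] at hw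
      obtain ⟨v, hv, rfl⟩ := hw
      simp only [Finset.mem_product, Finset.mem_range] at hv ⊢
      omega
    · intro w _ _
      positivity
  · have h1 : ∑ v ∈ range n ×ˢ range n, A v.1 v.2 ^ 2 =
        ∑ w ∈ (range n ×ˢ range n).image (fun v => (v.1 + s, v.2)),
          (if s ≤ w.1 then A (w.1 - s) w.2 else 0) ^ 2 := by
      rw [Finset.sum_image]
      · refine Finset.sum_congr rfl fun v _ => ?_
        rw [if_pos (by omega), Nat.add_sub_cancel]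
      · intro v _ v' _ he
        simp only [Prod.mk.injEq] at he
        exact Prod.ext (by omega) he.2
    rw [h1]
    apply Finset.sum_le_sum_of_subset_of_nonneg
    · intro w hw
      rw [Finset.mem_image] at hw
      obtain ⟨v, hv, rfl⟩ := hw
      simp only [Finset.mem_product, Finset.mem_range] at hv ⊢
      omega
    · intro w _ _
      positivity

theorem T_tr (hT : DTransp) (W : ℕ → ℕ → ℕ) (m n : ℕ) : T W m n = T (fun i j => W j i) n m :=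
  hT zero zero W m n

end comb

section prob

variable {Ω : Type} [MeasurableSpace Ω]

/-- stationarity of the covariances -/
theorem cov_inv {μ : Measure Ω} {q : ℝ} {W : ℕ → ℕ → Ω → ℕ} (hW : Bulk μ q W) (hA : AMeas)
    (hL : ALawB) (hO : AOps) (x y n i j : ℕ) :
    cov[fun ω => (Tr (shr x y W) n n ω : ℝ), fun ω => (W (i + x) (j + y) ω : ℝ); μ] =
      cov[fun ω => (Tr W n n ω : ℝ), fun ω => (W i j ω : ℝ); μ] := by
  have := hW.prob
  have hW' : Bulk μ q (shr x y W) := ((hO μ q).2.2 W hW).1 x y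
  have hmT : Measurable (fun z : ℕ → ℕ → ℕ => (T z n n : ℝ)) := by
    have h1 : Measurable (fun z : ℕ → ℕ → ℕ => ((zero, zero, z) : (ℕ → ℕ) × (ℕ → ℕ) ×
        (ℕ → ℕ → ℕ))) := measurable_const.prodMk (measurable_const.prodMk measurable_id)
    exact (measurable_of_countable (fun k : ℕ => (k : ℝ))).comp ((hA.1 n n).comp h1)
  have hmX : Measurable (fun z : ℕ → ℕ → ℕ => (z i j : ℝ)) := by
    have h1 : Measurable (fun z : ℕ → ℕ → ℕ => z i j) :=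
      (measurable_pi_apply j).comp (measurable_pi_apply i)
    exact (measurable_of_countable (fun k : ℕ => (k : ℝ))).comp h1
  have e1 := (hL μ μ q (shr x y W) W hW' hW _ hmT).integral_eq
  have e2 := (hL μ μ q (shr x y W) W hW' hW _ hmX).integral_eq
  have e3 := (hL μ μ q (shr x y W) W hW' hW _ (hmT.mul hmX)).integral_eq
  have t0 : MemLp (fun ω => (Tr W n n ω : ℝ)) 2 μ := Tr_memLp hW hA 0 0 n n
  rw [covariance_eq_sub (Tr_memLp hW hA x y n n) (bulk_memLp hW _ _),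
    covariance_eq_sub t0 (bulk_memLp hW _ _)]
  have f1 : ∫ ω, (Tr (shr x y W) n n ω : ℝ) ∂μ = ∫ ω, (Tr W n n ω : ℝ) ∂μ := e1
  have f2 : ∫ ω, (W (i + x) (j + y) ω : ℝ) ∂μ = ∫ ω, (W i j ω : ℝ) ∂μ := e2
  have f3 : ∫ ω, ((fun ω => (Tr (shr x y W) n n ω : ℝ)) *
      fun ω => (W (i + x) (j + y) ω : ℝ)) ω ∂μ =
      ∫ ω, ((fun ω => (Tr W n n ω : ℝ)) * fun ω => (W i j ω : ℝ)) ω ∂μ := e3
  rw [f1, f2, f3]

/-- the difference of two shifted passage times -/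
theorem var_diff (hQ : PQV) (hR : DRot) (hT : DTransp) (hO : AOps) (q : ℝ) (h0 : 0 < q)
    (h1 : q < 1) : ∃ C : ℝ, 0 < C ∧ ∃ n₀ : ℕ, ∀ n ≥ n₀, ∀ s : ℕ, s ^ 2 ≤ n →
    ∀ {Ω : Type} [MeasurableSpace Ω] (μ : Measure Ω) (W : ℕ → ℕ → Ω → ℕ), Bulk μ q W →
    variance (fun ω => (Tr (shr 0 s W) n n ω : ℝ) - (Tr (shr s 0 W) n n ω : ℝ)) μ ≤
      C * (n : ℝ) ^ (11 / 20 : ℝ) := by
  obtain ⟨C, hC, n₀, hQ'⟩ := hQ q h0 h1
  refine ⟨16 * C, by positivity, n₀, ?_⟩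
  intro n hn s hs Ω _ μ W hW
  have := hW.prob
  have hsn : s ≤ n := by nlinarith
  have hns : n - s + s = n := Nat.sub_add_cancel hsn
  obtain ⟨P, hP⟩ : ∃ P : ℝ, P = C * (n : ℝ) ^ (11 / 20 : ℝ) := ⟨_, rfl⟩
  have hops := (hO μ q).2.2
  -- the four environments
  obtain ⟨W1, hW1⟩ : ∃ W1 : ℕ → ℕ → Ω → ℕ, W1 = fun i j => (shr 0 s W) j i := ⟨_, rfl⟩
  obtain ⟨W2, hW2⟩ : ∃ W2 : ℕ → ℕ → Ω → ℕ, W2 = fun i j ω =>
    rot n (n - s) (fun i j => (shr 0 s W) i j ω) i j := ⟨_, rfl⟩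
  obtain ⟨W3, hW3⟩ : ∃ W3 : ℕ → ℕ → Ω → ℕ, W3 = shr s 0 W := ⟨_, rfl⟩
  obtain ⟨W4, hW4⟩ : ∃ W4 : ℕ → ℕ → Ω → ℕ, W4 = fun i j ω =>
    rot n (n - s) (fun i j => (shr s 0 W) j i ω) i j := ⟨_, rfl⟩
  have b1 : Bulk μ q W1 := by
    rw [hW1]
    exact (hops _ ((hops W hW).1 0 s)).2.2
  have b2 : Bulk μ q W2 := by
    rw [hW2]
    exact (hops _ ((hops W hW).1 0 s)).2.1 n (n - s)
  have b3 : Bulk μ q W3 := by
    rw [hW3]
    exact (hops W hW).1 s 0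
  have b4 : Bulk μ q W4 := by
    rw [hW4]
    exact (hops _ (hops _ ((hops W hW).1 s 0)).2.2).2.1 n (n - s)
  have m1 := hQ' n hn s hs (n - s) n (Or.inr rfl) (Or.inl rfl) μ W1 b1
  have m2 := hQ' n hn s hs (n - s) (n - s) (Or.inr rfl) (Or.inr rfl) μ W2 b2
  have m3 := hQ' n hn s hs (n - s) n (Or.inr rfl) (Or.inl rfl) μ W3 b3
  have m4 := hQ' n hn s hs (n - s) (n - s) (Or.inr rfl) (Or.inr rfl) μ W4 b4
  rw [hns, ← hP] at m1 m2 m3 m4
  -- identities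
  have i1 : ∀ ω, Tr W1 n n ω = Tr (shr 0 s W) n n ω := by
    intro ω
    rw [hW1]
    unfold Tr
    rw [T_tr hT]
  have i1' : ∀ ω, Tr W1 (n - s) n ω = Tr (shr 0 s W) n (n - s) ω := by
    intro ω
    rw [hW1]
    unfold Tr
    rw [T_tr hT]
  have i2 : ∀ ω, Tr W2 n (n - s) ω = Tr (shr 0 s W) n (n - s) ω := by
    intro ω
    have h2 := hR (fun i j => (shr 0 s W) i j ω) n (n - s) 0 0 (Nat.zero_le _) (Nat.zero_le _)
    rw [hW2]
    exact h2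
  have i2' : ∀ ω, Tr W2 (n - s) (n - s) ω = T (sh s s (fun i j => W i j ω)) (n - s) (n - s) := by
    intro ω
    have h2 := hR (fun i j => (shr 0 s W) i j ω) n (n - s) s 0 hsn (Nat.zero_le _)
    rw [hW2]
    exact h2
  have i4 : ∀ ω, Tr W4 n (n - s) ω = Tr W3 (n - s) n ω := by
    intro ω
    have h2 := hR (fun i j => (shr s 0 W) j i ω) n (n - s) 0 0 (Nat.zero_le _) (Nat.zero_le _)
    rw [hW4, hW3]
    refine Eq.trans h2 ?_
    unfold Tr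
    rw [T_tr hT (fun i j => shr s 0 W i j ω)]
    rfl
  have i4' : ∀ ω, Tr W4 (n - s) (n - s) ω = T (sh s s (fun i j => W i j ω)) (n - s) (n - s) := by
    intro ω
    have h2 := hR (fun i j => (shr s 0 W) j i ω) n (n - s) s 0 hsn (Nat.zero_le _)
    rw [hW4, T_tr hT (sh s s (fun i j => W i j ω))]
    exact h2
  obtain ⟨c, hc⟩ : ∃ c : ℝ, c = s * mean (Real.sqrt q) := ⟨_, rfl⟩
  rw [← hc] at m1 m2 m3 m4
  obtain ⟨x1, hx1⟩ : ∃ x : Ω → ℝ, x = fun ω => (Tr W1 n n ω : ℝ) - Tr W1 (n - s) n ω - c :=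
    ⟨_, rfl⟩
  obtain ⟨x2, hx2⟩ : ∃ x : Ω → ℝ, x = fun ω =>
    (Tr W2 n (n - s) ω : ℝ) - Tr W2 (n - s) (n - s) ω - c := ⟨_, rfl⟩
  obtain ⟨x3, hx3⟩ : ∃ x : Ω → ℝ, x = fun ω => (Tr W3 n n ω : ℝ) - Tr W3 (n - s) n ω - c :=
    ⟨_, rfl⟩
  obtain ⟨x4, hx4⟩ : ∃ x : Ω → ℝ, x = fun ω =>
    (Tr W4 n (n - s) ω : ℝ) - Tr W4 (n - s) (n - s) ω - c := ⟨_, rfl⟩
  have l1 : MemLp x1 2 μ := by rw [hx1]; exact m1.1.sub (memLp_const c)
  have l2 : MemLp x2 2 μ := by rw [hx2]; exact m2.1.sub (memLp_const c)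
  have l3 : MemLp x3 2 μ := by rw [hx3]; exact m3.1.sub (memLp_const c)
  have l4 : MemLp x4 2 μ := by rw [hx4]; exact m4.1.sub (memLp_const c)
  have p1 : ∫ ω, x1 ω ^ 2 ∂μ ≤ P := by rw [hx1]; exact m1.2
  have p2 : ∫ ω, x2 ω ^ 2 ∂μ ≤ P := by rw [hx2]; exact m2.2
  have p3 : ∫ ω, x3 ω ^ 2 ∂μ ≤ P := by rw [hx3]; exact m3.2
  have p4 : ∫ ω, x4 ω ^ 2 ∂μ ≤ P := by rw [hx4]; exact m4.2
  have hZ : (fun ω => (Tr (shr 0 s W) n n ω : ℝ) - (Tr (shr s 0 W) n n ω : ℝ)) =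
      fun ω => x1 ω + x2 ω - x3 ω - x4 ω := by
    funext ω
    rw [hx1, hx2, hx3, hx4]
    beta_reduce
    rw [i1 ω, i1' ω, i2 ω, i2' ω, i4 ω, i4' ω, hW3]
    ring
  rw [hZ]
  have hm : MemLp (fun ω => x1 ω + x2 ω - x3 ω - x4 ω) 2 μ := ((l1.add l2).sub l3).sub l4
  refine (variance_le_expectation_sq hm.aestronglyMeasurable).trans ?_
  have hsq : ∫ ω, ((fun ω => x1 ω + x2 ω - x3 ω - x4 ω) ^ 2) ω ∂μ ≤
      ∫ ω, 4 * (x1 ω ^ 2 + x2 ω ^ 2 + (x3 ω ^ 2 + x4 ω ^ 2)) ∂μ := by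
    refine integral_mono hm.integrable_sq ?_ fun ω => ?_
    · exact (((l1.integrable_sq.add l2.integrable_sq).add
        (l3.integrable_sq.add l4.integrable_sq))).const_mul 4
    · simp only [Pi.pow_apply]
      nlinarith [sq_nonneg (x1 ω - x2 ω), sq_nonneg (x1 ω + x3 ω), sq_nonneg (x1 ω + x4 ω),
        sq_nonneg (x2 ω + x3 ω), sq_nonneg (x2 ω + x4 ω), sq_nonneg (x3 ω - x4 ω)]
  refine hsq.trans ?_
  have j1 : ∫ ω, (x1 ω ^ 2 + x2 ω ^ 2) ∂μ = ∫ ω, x1 ω ^ 2 ∂μ + ∫ ω, x2 ω ^ 2 ∂μ :=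
    integral_add l1.integrable_sq l2.integrable_sq
  have j2 : ∫ ω, (x3 ω ^ 2 + x4 ω ^ 2) ∂μ = ∫ ω, x3 ω ^ 2 ∂μ + ∫ ω, x4 ω ^ 2 ∂μ :=
    integral_add l3.integrable_sq l4.integrable_sq
  have j3 : ∫ ω, (x1 ω ^ 2 + x2 ω ^ 2 + (x3 ω ^ 2 + x4 ω ^ 2)) ∂μ =
      ∫ ω, (x1 ω ^ 2 + x2 ω ^ 2) ∂μ + ∫ ω, (x3 ω ^ 2 + x4 ω ^ 2) ∂μ :=
    integral_add (l1.integrable_sq.add l2.integrable_sq) (l3.integrable_sq.add l4.integrable_sq)
  rw [integral_const_mul, j3, j1, j2, mul_assoc, ← hP]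
  linarith

end prob

theorem pSS (hQ : PQV) (hR : DRot) (hT : DTransp) (hS : DSl) (hG : DGeod) (hA : AMeas)
    (hL : ALawB) (hO : AOps) : PSS := by
  intro q h0 h1
  obtain ⟨C, hC, n₀, hvar⟩ := var_diff hQ hR hT hO q h0 h1
  obtain ⟨M1, hM1, hmom1⟩ := mom q h0.le h1 1
  obtain ⟨K, hK, hmom2⟩ := mom q h0.le h1 2
  obtain ⟨M, hM, hmom82⟩ := mom q h0.le h1 82
  refine ⟨4 * ((1 + M1) * (1 + M)) ^ 2 + K * C + 1, by positivity, n₀ + 1, ?_⟩
  intro n hn Ω _ μ W hW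
  have := hW.prob
  have hn1 : 1 ≤ n := by omega
  have hn' : (1 : ℝ) ≤ n := by exact_mod_cast hn1
  obtain ⟨A, hAd⟩ : ∃ A : ℕ → ℕ → ℝ, A = fun i j =>
    cov[fun ω => (Tr W n n ω : ℝ), fun ω => (W i j ω : ℝ); μ] := ⟨_, rfl⟩
  have hAd' : ∀ i j, cov[fun ω => (Tr W n n ω : ℝ), fun ω => (W i j ω : ℝ); μ] = A i j :=
    fun i j => by rw [hAd]
  simp only [hAd']
  rw [← Finset.sum_product']
  obtain ⟨S, hSd⟩ : ∃ S : ℝ, S = ∑ v ∈ range n ×ˢ range n, A v.1 v.2 ^ 2 := ⟨_, rfl⟩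
  rw [← hSd]
  have hAout : ∀ i j, ¬ (i < n ∧ j < n) → A i j = 0 := by
    intro i j hij
    rw [← hAd']
    exact cov_zero hW hA 0 0 n n i j (fun h => hij (by omega))
  obtain ⟨D, hDd⟩ : ∃ D : ℝ, D = (1 + M1) * ((n : ℝ) ^ (1 / 20 : ℝ) + M) := ⟨_, rfl⟩
  have hD : ∀ k, ∑ v ∈ (range n ×ˢ range n).filter (fun v => v.1 + v.2 = k), |A v.1 v.2| ≤ D := by
    intro k
    have h2 := cov_level hW hA hS hG n hn1 M1 M (fun i j => by
      have h3 := (hmom1 μ (W i j) hW.prob (hW.meas (i, j)) (hW.law (i, j))).2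
      simpa using h3) (fun i j => hmom82 μ (W i j) hW.prob (hW.meas (i, j)) (hW.law (i, j))) k
    simp only [hAd'] at h2
    rw [hDd]
    exact h2
  have hKv : ∀ i j, variance (fun ω => (W i j ω : ℝ)) μ ≤ K := by
    intro i j
    refine (variance_le_expectation_sq (bulk_memLp hW i j).aestronglyMeasurable).trans ?_
    exact (hmom2 μ (W i j) hW.prob (hW.meas (i, j)) (hW.law (i, j))).2
  -- the inequality for one shift
  have hone : ∀ s, s ^ 2 ≤ n → 2 * S ≤ K * (C * (n : ℝ) ^ (11 / 20 : ℝ)) +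
      2 * ∑ w ∈ range (2 * n) ×ˢ range (2 * n),
        (if s ≤ w.2 then |A w.1 (w.2 - s)| else 0) * (if s ≤ w.1 then |A (w.1 - s) w.2| else 0) := by
    intro s hs
    have hsn : s ≤ n := by nlinarith
    have c0 : ∀ w : ℕ × ℕ, cov[fun ω => (Tr (shr 0 s W) n n ω : ℝ),
        fun ω => (W w.1 w.2 ω : ℝ); μ] = if s ≤ w.2 then A w.1 (w.2 - s) else 0 := by
      intro w
      by_cases h : s ≤ w.2
      · rw [if_pos h, ← hAd', ← cov_inv hW hA hL hO 0 s n w.1 (w.2 - s), Nat.sub_add_cancel h]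
        rfl
      · rw [if_neg h]
        exact cov_zero hW hA 0 s n n w.1 w.2 (fun h' => h h'.2.2.1)
    have c1 : ∀ w : ℕ × ℕ, cov[fun ω => (Tr (shr s 0 W) n n ω : ℝ),
        fun ω => (W w.1 w.2 ω : ℝ); μ] = if s ≤ w.1 then A (w.1 - s) w.2 else 0 := by
      intro w
      by_cases h : s ≤ w.1
      · rw [if_pos h, ← hAd', ← cov_inv hW hA hL hO s 0 n (w.1 - s) w.2, Nat.sub_add_cancel h]
        rfl
      · rw [if_neg h]
        exact cov_zero hW hA s 0 n n w.1 w.2 (fun h' => h h'.1)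
    have hmZ : MemLp (fun ω => (Tr (shr 0 s W) n n ω : ℝ) - (Tr (shr s 0 W) n n ω : ℝ)) 2 μ :=
      (Tr_memLp hW hA 0 s n n).sub (Tr_memLp hW hA s 0 n n)
    have hb := bessel hW (range (2 * n) ×ˢ range (2 * n)) _ hmZ K hKv
    have hcv : ∀ w : ℕ × ℕ, cov[fun ω => (Tr (shr 0 s W) n n ω : ℝ) -
        (Tr (shr s 0 W) n n ω : ℝ), fun ω => (W w.1 w.2 ω : ℝ); μ] =
        (if s ≤ w.2 then A w.1 (w.2 - s) else 0) - (if s ≤ w.1 then A (w.1 - s) w.2 else 0) := by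
      intro w
      rw [covariance_fun_sub_left (Tr_memLp hW hA 0 s n n) (Tr_memLp hW hA s 0 n n)
        (bulk_memLp hW _ _), c0, c1]
    simp only [hcv] at hb
    have hv := hvar n (by omega) s hs μ W hW
    have hb2 := hb.trans (mul_le_mul_of_nonneg_left hv hK)
    obtain ⟨s1, s2⟩ := shsum n (2 * n) s (by omega) A
    rw [← hSd] at s1 s2
    have hexp : ∑ w ∈ range (2 * n) ×ˢ range (2 * n),
        ((if s ≤ w.2 then A w.1 (w.2 - s) else 0) -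
          (if s ≤ w.1 then A (w.1 - s) w.2 else 0)) ^ 2 =
        ∑ w ∈ range (2 * n) ×ˢ range (2 * n), (if s ≤ w.2 then A w.1 (w.2 - s) else 0) ^ 2 +
        ∑ w ∈ range (2 * n) ×ˢ range (2 * n), (if s ≤ w.1 then A (w.1 - s) w.2 else 0) ^ 2 -
        2 * ∑ w ∈ range (2 * n) ×ˢ range (2 * n), (if s ≤ w.2 then A w.1 (w.2 - s) else 0) *
          (if s ≤ w.1 then A (w.1 - s) w.2 else 0) := by
      rw [Finset.mul_sum, ← Finset.sum_add_distrib, ← Finset.sum_sub_distrib]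
      refine Finset.sum_congr rfl fun w _ => ?_
      ring
    have habs : ∑ w ∈ range (2 * n) ×ˢ range (2 * n), (if s ≤ w.2 then A w.1 (w.2 - s) else 0) *
          (if s ≤ w.1 then A (w.1 - s) w.2 else 0) ≤
        ∑ w ∈ range (2 * n) ×ˢ range (2 * n), (if s ≤ w.2 then |A w.1 (w.2 - s)| else 0) *
          (if s ≤ w.1 then |A (w.1 - s) w.2| else 0) := by
      refine Finset.sum_le_sum fun w _ => ?_
      refine (le_abs_self _).trans ?_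
      rw [abs_mul]
      apply le_of_eq
      congr 1
      · split_ifs
        · rfl
        · exact abs_zero
      · split_ifs
        · rfl
        · exact abs_zero
    rw [hexp] at hb2
    linarith
  -- average over the shifts
  obtain ⟨r, hr⟩ : ∃ r : ℕ, r = Nat.sqrt n := ⟨_, rfl⟩
  have hr1 : 1 ≤ r := by
    rw [hr]
    exact Nat.le_sqrt.2 (by omega)
  have hr2 : r ^ 2 ≤ n := by
    rw [hr]
    exact Nat.sqrt_le' n
  have hr3 : n < (r + 1) ^ 2 := by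
    rw [hr]
    exact Nat.lt_succ_sqrt' n
  have hsum : ∑ s ∈ Icc 1 r, 2 * S ≤ ∑ s ∈ Icc 1 r, (K * (C * (n : ℝ) ^ (11 / 20 : ℝ)) +
      2 * ∑ w ∈ range (2 * n) ×ˢ range (2 * n),
        (if s ≤ w.2 then |A w.1 (w.2 - s)| else 0) *
          (if s ≤ w.1 then |A (w.1 - s) w.2| else 0)) := by
    refine Finset.sum_le_sum fun s hs => hone s ?_
    rw [Finset.mem_Icc] at hs
    exact (Nat.pow_le_pow_left hs.2 2).trans hr2
  have hcross := cross n (2 * n) r (fun i j => |A i j|) (fun i j => abs_nonneg _)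
    (fun i j hij => by rw [hAout i j hij, abs_zero]) D hD
  rw [Finset.sum_const, Finset.sum_add_distrib, Finset.sum_const, ← Finset.mul_sum,
    Nat.card_Icc, Nat.add_sub_cancel, nsmul_eq_mul, nsmul_eq_mul] at hsum
  have hr' : (1 : ℝ) ≤ r := by exact_mod_cast hr1
  have hS0 : 0 ≤ S := by rw [hSd]; positivity
  obtain ⟨E, hE⟩ : ∃ E : ℝ, E = (n : ℝ) ^ (11 / 20 : ℝ) := ⟨_, rfl⟩
  rw [← hE] at hsum
  have h3 : (r : ℝ) * S ≤ r * (K * C * E) + 2 * n * D ^ 2 := by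
    have hE0 : 0 ≤ K * C * E := by rw [hE]; positivity
    nlinarith
  -- `n ≤ 4 r²`, so `2 n D² / r ≤ 8 r D²`
  have hn4 : (n : ℝ) ≤ 2 * r * Real.sqrt n := by
    have h4 : Real.sqrt n ≤ 2 * r := by
      rw [Real.sqrt_le_left (by positivity)]
      have h5 : n ≤ (2 * r) ^ 2 := by nlinarith
      exact_mod_cast h5
    have h5 : Real.sqrt n * Real.sqrt n = n := Real.mul_self_sqrt (by positivity)
    have h6 := Real.sqrt_nonneg (n : ℝ)
    nlinarith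
  have h4 : S ≤ K * C * E + 4 * Real.sqrt n * D ^ 2 := by
    have h5 : (r : ℝ) * S ≤ r * (K * C * E + 4 * Real.sqrt n * D ^ 2) := by
      have h6 : 0 ≤ D ^ 2 := by positivity
      nlinarith
    exact le_of_mul_le_mul_left h5 (by linarith)
  -- powers of `n`
  have g1 : (1 : ℝ) ≤ (n : ℝ) ^ (1 / 20 : ℝ) := Real.one_le_rpow hn' (by norm_num)
  have g2 : D ≤ (1 + M1) * (1 + M) * (n : ℝ) ^ (1 / 20 : ℝ) := by
    rw [hDd, mul_assoc]
    refine mul_le_mul_of_nonneg_left ?_ (by linarith)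
    nlinarith
  have hD0 : 0 ≤ D := by rw [hDd]; positivity
  have g3 : D ^ 2 ≤ ((1 + M1) * (1 + M)) ^ 2 * (n : ℝ) ^ (1 / 10 : ℝ) := by
    have h5 := pow_le_pow_left₀ hD0 g2 2
    rw [mul_pow, ← Real.rpow_natCast ((n : ℝ) ^ (1 / 20 : ℝ)) 2,
      ← Real.rpow_mul (by positivity)] at h5
    refine h5.trans (le_of_eq ?_)
    norm_num
  have g4 : Real.sqrt n * (n : ℝ) ^ (1 / 10 : ℝ) = (n : ℝ) ^ (3 / 5 : ℝ) := by
    rw [Real.sqrt_eq_rpow, ← Real.rpow_add (by linarith)]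
    norm_num
  have g5 : E ≤ (n : ℝ) ^ (3 / 5 : ℝ) := by
    rw [hE]
    exact Real.rpow_le_rpow_of_exponent_le hn' (by norm_num)
  have g6 : 4 * Real.sqrt n * D ^ 2 ≤ 4 * ((1 + M1) * (1 + M)) ^ 2 * (n : ℝ) ^ (3 / 5 : ℝ) := by
    rw [← g4]
    have h6 := Real.sqrt_nonneg (n : ℝ)
    calc 4 * Real.sqrt n * D ^ 2 ≤
        4 * Real.sqrt n * (((1 + M1) * (1 + M)) ^ 2 * (n : ℝ) ^ (1 / 10 : ℝ)) := by gcongr
      _ = _ := by ring
  have g7 : (0 : ℝ) ≤ (n : ℝ) ^ (3 / 5 : ℝ) := by positivity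
  have g8 : K * C * E ≤ K * C * (n : ℝ) ^ (3 / 5 : ℝ) := by gcongr
  calc S ≤ K * C * E + 4 * Real.sqrt n * D ^ 2 := h4
    _ ≤ K * C * (n : ℝ) ^ (3 / 5 : ℝ) +
        4 * ((1 + M1) * (1 + M)) ^ 2 * (n : ℝ) ^ (3 / 5 : ℝ) := add_le_add g8 g6
    _ ≤ _ := by nlinarith

end Pool.Agent.W407.LP
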