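import Pool.Agent.W533.LP.Stm
import Pool.Agent.W533.LP.Stm2
import Pool.Agent.W533.LP.Stm3

/-!
# LP-SS, first part: moments, independence, Bessel's inequality
-/

set_option autoImplicit false

namespace Pool.Agent.W407.LP

open Pool.Agent.W533.LP MeasureTheory ProbabilityTheory Finset

theorem T_congr : ∀ (m n : ℕ) (W W' : ℕ → ℕ → ℕ), (∀ i < m, ∀ j < n, W i j = W' i j) →
    T W m n = T W' m n
  | 0, 0, _, _, _ => by simp only [T, G]
  | m + 1, 0, W, W', h => by
      have h1 := T_congr m 0 W W' (fun i _ j hj => absurd hj (by omega))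
      unfold T at h1 ⊢
      simp only [G, h1]
  | 0, n + 1, W, W', h => by
      have h1 := T_congr 0 n W W' (fun i hi j _ => absurd hi (by omega))
      unfold T at h1 ⊢
      simp only [G, h1]
  | m + 1, n + 1, W, W', h => by
      have h1 := T_congr m (n + 1) W W' (fun i hi j hj => h i (by omega) j hj)
      have h2 := T_congr (m + 1) n W W' (fun i hi j hj => h i hi j (by omega))
      have h3 := h m (by omega) n (by omega)
      unfold T at h1 h2 ⊢
      simp only [G, h1, h2, h3]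

theorem T_le_sum : ∀ (m n : ℕ) (W : ℕ → ℕ → ℕ),
    T W m n ≤ ∑ i ∈ range m, ∑ j ∈ range n, W i j
  | 0, 0, _ => by simp [T, G]
  | m + 1, 0, W => by
      have h1 := T_le_sum m 0 W
      unfold T at h1 ⊢
      simp only [G, zero]
      simpa using h1
  | 0, n + 1, W => by
      have h1 := T_le_sum 0 n W
      unfold T at h1 ⊢
      simp only [G, zero]
      simpa using h1
  | m + 1, n + 1, W => by
      have h1 := T_le_sum m (n + 1) W
      have h2 := T_le_sum (m + 1) n W
      have h3 : ∑ i ∈ range (m + 1), ∑ j ∈ range (n + 1), W i j =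
          (∑ i ∈ range (m + 1), ∑ j ∈ range n, W i j) + ∑ i ∈ range (m + 1), W i n := by
        rw [← sum_add_distrib]
        exact sum_congr rfl fun i _ => sum_range_succ _ _
      have h4 : W m n ≤ ∑ i ∈ range (m + 1), W i n :=
        single_le_sum (f := fun i => W i n) (fun i _ => Nat.zero_le _) (by simp)
      have h5 : ∑ i ∈ range (m + 1), ∑ j ∈ range (n + 1), W i j =
          (∑ i ∈ range m, ∑ j ∈ range (n + 1), W i j) + ∑ j ∈ range (n + 1), W m j :=
        sum_range_succ _ _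
      have h6 : W m n ≤ ∑ j ∈ range (n + 1), W m j :=
        single_le_sum (f := fun j => W m j) (fun i _ => Nat.zero_le _) (by simp)
      unfold T at h1 h2 ⊢
      simp only [G]
      omega

section prob

variable {Ω : Type} [MeasurableSpace Ω]

/-- moments of the geometric law -/
theorem mom (q : ℝ) (h0 : 0 ≤ q) (h1 : q < 1) (p : ℕ) : ∃ M : ℝ, 0 ≤ M ∧
    ∀ {Ω : Type} [MeasurableSpace Ω] (μ : Measure Ω) (X : Ω → ℕ), IsProbabilityMeasure μ →
    Measurable X → (∀ k, μ.real {ω | X ω = k} = (1 - q) * q ^ k) →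
    Integrable (fun ω => (X ω : ℝ) ^ p) μ ∧ ∫ ω, (X ω : ℝ) ^ p ∂μ ≤ M := by
  have hs : Summable (fun k : ℕ => (k : ℝ) ^ p * ((1 - q) * q ^ k)) := by
    have h2 := summable_pow_mul_geometric_of_norm_lt_one p (r := q)
      (by rw [Real.norm_eq_abs, abs_of_nonneg h0]; exact h1)
    have h3 := h2.mul_left (1 - q)
    refine h3.congr fun k => ?_
    ring
  have hnn : ∀ k : ℕ, 0 ≤ (k : ℝ) ^ p * ((1 - q) * q ^ k) := by
    intro k
    have : 0 ≤ 1 - q := by linarith
    positivity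
  refine ⟨∑' k : ℕ, (k : ℝ) ^ p * ((1 - q) * q ^ k), tsum_nonneg hnn, ?_⟩
  intro Ω _ μ X hμ hX hlaw
  have hlin : ∫⁻ ω, ENNReal.ofReal ((X ω : ℝ) ^ p) ∂μ =
      ENNReal.ofReal (∑' k : ℕ, (k : ℝ) ^ p * ((1 - q) * q ^ k)) := by
    have h4 : ∫⁻ ω, ENNReal.ofReal ((X ω : ℝ) ^ p) ∂μ =
        ∫⁻ k : ℕ, ENNReal.ofReal ((k : ℝ) ^ p) ∂(μ.map X) := by
      rw [lintegral_map (Measurable.of_discrete) hX]
    rw [h4, lintegral_countable', ENNReal.ofReal_tsum_of_nonneg hnn hs]
    refine tsum_congr fun k => ?_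
    rw [Measure.map_apply hX (measurableSet_singleton k),
      ENNReal.ofReal_mul (by positivity)]
    congr 1
    have h5 := hlaw k
    rw [← h5, Measure.real, ENNReal.ofReal_toReal (measure_ne_top _ _)]
    rfl
  have hmeas : Measurable (fun ω => (X ω : ℝ) ^ p) :=
    (Measurable.of_discrete (f := fun k : ℕ => (k : ℝ) ^ p)).comp hX
  have hint : Integrable (fun ω => (X ω : ℝ) ^ p) μ := by
    refine ⟨hmeas.aestronglyMeasurable, ?_⟩
    rw [hasFiniteIntegral_iff_ofReal (Filter.Eventually.of_forall fun ω => by positivity), hlin]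
    exact ENNReal.ofReal_lt_top
  refine ⟨hint, ?_⟩
  rw [integral_eq_lintegral_of_nonneg_ae (Filter.Eventually.of_forall fun ω => by positivity)
    hmeas.aestronglyMeasurable, hlin, ENNReal.toReal_ofReal (tsum_nonneg hnn)]

theorem bulk_memLp {μ : Measure Ω} {q : ℝ} {W : ℕ → ℕ → Ω → ℕ} (hW : Bulk μ q W) (i j : ℕ) :
    MemLp (fun ω => (W i j ω : ℝ)) 2 μ := by
  have hq := hW.pos (0, 0)
  obtain ⟨M, _, hM⟩ := mom q hq.1 hq.2 2
  have hm : Measurable (W i j) := hW.meas (i, j)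
  have h1 := hM μ (W i j) hW.prob hm (hW.law (i, j))
  rw [memLp_two_iff_integrable_sq]
  · exact h1.1
  · exact ((Measurable.of_discrete (f := fun k : ℕ => (k : ℝ))).comp hm).aestronglyMeasurable

theorem T_memLp {μ : Measure Ω} {q : ℝ} {W : ℕ → ℕ → Ω → ℕ} (hW : Bulk μ q W)
    (f : Ω → ℕ) (hf : Measurable f) (m n : ℕ)
    (hle : ∀ ω, f ω ≤ ∑ i ∈ range m, ∑ j ∈ range n, W i j ω) :
    MemLp (fun ω => (f ω : ℝ)) 2 μ := by
  have h1 : MemLp (fun ω => ∑ i ∈ range m, ∑ j ∈ range n, (W i j ω : ℝ)) 2 μ := by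
    refine memLp_finsetSum _ fun i _ => ?_
    exact memLp_finsetSum _ fun j _ => bulk_memLp hW i j
  refine h1.mono ((Measurable.of_discrete (f := fun k : ℕ => (k : ℝ))).comp
    hf).aestronglyMeasurable (Filter.Eventually.of_forall fun ω => ?_)
  have h2 : (f ω : ℝ) ≤ ∑ i ∈ range m, ∑ j ∈ range n, (W i j ω : ℝ) := by
    exact_mod_cast hle ω
  rw [Real.norm_eq_abs, abs_of_nonneg (Nat.cast_nonneg _)]
  exact h2.trans (le_abs_self _)

/-- replacing one weight by zero -/
def kill (a b : ℕ) (W : ℕ → ℕ → ℕ) : ℕ → ℕ → ℕ := fun i j => if i = a ∧ j = b then 0 else W i j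

theorem indep0 {μ : Measure Ω} {q : ℝ} {W : ℕ → ℕ → Ω → ℕ} (hW : Bulk μ q W)
    (x y m n a b : ℕ) :
    IndepFun (fun ω => (T (sh x y (kill a b (fun i j => W i j ω))) m n : ℝ))
      (fun ω => (W a b ω : ℝ)) μ := by
  classical
  obtain ⟨S, hS⟩ : ∃ S : Finset (ℕ × ℕ),
      S = ((range (x + m)) ×ˢ (range (y + n))).erase (a, b) := ⟨_, rfl⟩
  have hdis : Disjoint S {(a, b)} := by
    rw [hS, Finset.disjoint_singleton_right]
    exact Finset.notMem_erase _ _
  have h1 := hW.indep.indepFun_finset S {(a, b)} hdis hW.meas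
  have h2 := h1.comp (φ := fun z : S → ℕ =>
      (T (sh x y (fun i j => if h : (i, j) ∈ S then z ⟨(i, j), h⟩ else 0)) m n : ℝ))
    (ψ := fun z : ({(a, b)} : Finset (ℕ × ℕ)) → ℕ =>
      (z ⟨(a, b), Finset.mem_singleton_self _⟩ : ℝ))
    (measurable_of_countable _) (measurable_of_countable _)
  have h3 : (fun ω => (T (sh x y (kill a b (fun i j => W i j ω))) m n : ℝ)) =
      (fun z : S → ℕ =>
        (T (sh x y (fun i j => if h : (i, j) ∈ S then z ⟨(i, j), h⟩ else 0)) m n : ℝ)) ∘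
      (fun ω (i : S) => W i.1.1 i.1.2 ω) := by
    funext ω
    simp only [Function.comp]
    congr 1
    apply T_congr
    intro i hi j hj
    unfold sh kill
    beta_reduce
    by_cases hab : i + x = a ∧ j + y = b
    · rw [if_pos hab, dif_neg]
      rw [hS, hab.1, hab.2]
      exact Finset.notMem_erase _ _
    · rw [if_neg hab, dif_pos]
      rw [hS, Finset.mem_erase, Finset.mem_product, Finset.mem_range, Finset.mem_range]
      refine ⟨?_, by omega, by omega⟩
      intro h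
      rw [Prod.mk.injEq] at h
      exact hab h
  rw [h3]
  exact h2

theorem kill_meas {W : ℕ → ℕ → Ω → ℕ} (hmW : ∀ i j, Measurable (W i j)) (hA : AMeas)
    (x y m n a b : ℕ) :
    Measurable (fun ω => T (sh x y (kill a b (fun i j => W i j ω))) m n) := by
  have h1 := hA.2.1 (fun (_ : ℕ) (_ : Ω) => 0) (fun (_ : ℕ) (_ : Ω) => 0)
    (fun i j ω => sh x y (kill a b (fun i j => W i j ω)) i j)
    (fun _ => measurable_const) (fun _ => measurable_const) (fun i j => by
      unfold sh kill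
      split_ifs
      · exact measurable_const
      · exact hmW _ _) m n
  exact h1

theorem T_sh_meas {W : ℕ → ℕ → Ω → ℕ} (hmW : ∀ i j, Measurable (W i j)) (hA : AMeas)
    (x y m n : ℕ) :
    Measurable (Tr (shr x y W) m n) := by
  have h1 := hA.2.1 (fun (_ : ℕ) (_ : Ω) => 0) (fun (_ : ℕ) (_ : Ω) => 0)
    (fun i j ω => W (i + x) (j + y) ω)
    (fun _ => measurable_const) (fun _ => measurable_const) (fun i j => hmW _ _) m n
  exact h1

theorem sum_sh_le (x y m n : ℕ) (W : ℕ → ℕ → ℕ) :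
    ∑ i ∈ range m, ∑ j ∈ range n, W (i + x) (j + y) ≤
      ∑ i ∈ range (m + x), ∑ j ∈ range (n + y), W i j := by
  have h1 : ∀ (f : ℕ → ℕ) (k z : ℕ), ∑ i ∈ range k, f (i + z) ≤ ∑ i ∈ range (k + z), f i := by
    intro f k z
    rw [add_comm k z, Finset.sum_range_add]
    have : ∑ i ∈ range k, f (i + z) = ∑ i ∈ range k, f (z + i) :=
      sum_congr rfl fun i _ => by rw [add_comm]
    omega
  calc ∑ i ∈ range m, ∑ j ∈ range n, W (i + x) (j + y)
      ≤ ∑ i ∈ range m, ∑ j ∈ range (n + y), W (i + x) j :=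
        sum_le_sum fun i _ => h1 (fun j => W (i + x) j) n y
    _ ≤ _ := h1 (fun i => ∑ j ∈ range (n + y), W i j) m x

theorem Tr_memLp {μ : Measure Ω} {q : ℝ} {W : ℕ → ℕ → Ω → ℕ} (hW : Bulk μ q W) (hA : AMeas)
    (x y m n : ℕ) : MemLp (fun ω => (Tr (shr x y W) m n ω : ℝ)) 2 μ := by
  refine T_memLp hW _ (T_sh_meas (fun i j => hW.meas (i, j)) hA x y m n) (m + x) (n + y)
    fun ω => ?_
  exact (T_le_sum m n _).trans (sum_sh_le x y m n (fun i j => W i j ω))

theorem kill_memLp {μ : Measure Ω} {q : ℝ} {W : ℕ → ℕ → Ω → ℕ} (hW : Bulk μ q W) (hA : AMeas)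
    (x y m n a b : ℕ) :
    MemLp (fun ω => (T (sh x y (kill a b (fun i j => W i j ω))) m n : ℝ)) 2 μ := by
  refine T_memLp hW _ (kill_meas (fun i j => hW.meas (i, j)) hA x y m n a b) (m + x) (n + y)
    fun ω => ?_
  refine (T_le_sum m n _).trans ?_
  refine le_trans ?_ (sum_sh_le x y m n (fun i j => W i j ω))
  refine sum_le_sum fun i _ => sum_le_sum fun j _ => ?_
  unfold sh kill
  split_ifs
  · exact Nat.zero_le _
  · exact le_rfl

/-- the weights outside the box are uncorrelated with the passage time -/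
theorem cov_zero {μ : Measure Ω} {q : ℝ} {W : ℕ → ℕ → Ω → ℕ} (hW : Bulk μ q W) (hA : AMeas)
    (x y m n a b : ℕ) (hout : ¬ (x ≤ a ∧ a < x + m ∧ y ≤ b ∧ b < y + n)) :
    cov[fun ω => (Tr (shr x y W) m n ω : ℝ), fun ω => (W a b ω : ℝ); μ] = 0 := by
  have := hW.prob
  have h1 : (fun ω => (Tr (shr x y W) m n ω : ℝ)) =
      fun ω => (T (sh x y (kill a b (fun i j => W i j ω))) m n : ℝ) := by
    funext ω
    congr 1
    unfold Tr
    apply T_congr
    intro i hi j hj
    unfold shr sh kill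
    rw [if_neg]
    rintro ⟨h2, h3⟩
    exact hout (by omega)
  rw [h1]
  exact (indep0 hW x y m n a b).covariance_eq_zero (kill_memLp hW hA x y m n a b)
    (bulk_memLp hW a b)

/-- Bessel's inequality -/
theorem bessel {μ : Measure Ω} {q : ℝ} {W : ℕ → ℕ → Ω → ℕ} (hW : Bulk μ q W)
    (F : Finset (ℕ × ℕ)) (Z : Ω → ℝ) (hZ : MemLp Z 2 μ) (K : ℝ)
    (hK : ∀ i j, variance (fun ω => (W i j ω : ℝ)) μ ≤ K) :
    ∑ v ∈ F, (cov[Z, fun ω => (W v.1 v.2 ω : ℝ); μ]) ^ 2 ≤ K * variance Z μ := by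
  have := hW.prob
  obtain ⟨c, hc⟩ : ∃ c : ℕ × ℕ → ℝ, c = fun v => cov[Z, fun ω => (W v.1 v.2 ω : ℝ); μ] :=
    ⟨_, rfl⟩
  have hc' : ∀ v, cov[Z, fun ω => (W v.1 v.2 ω : ℝ); μ] = c v := fun v => by rw [hc]
  simp only [hc']
  obtain ⟨A, hA⟩ : ∃ A : ℝ, A = ∑ v ∈ F, c v ^ 2 := ⟨_, rfl⟩
  rw [← hA]
  have hmem : ∀ v, MemLp (fun ω => c v * (W v.1 v.2 ω : ℝ)) 2 μ := fun v =>
    (bulk_memLp hW v.1 v.2).const_mul (c v)
  have hS : MemLp (fun ω => ∑ v ∈ F, c v * (W v.1 v.2 ω : ℝ)) 2 μ :=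
    memLp_finsetSum _ fun v _ => hmem v
  have h1 : cov[Z, fun ω => ∑ v ∈ F, c v * (W v.1 v.2 ω : ℝ); μ] = A := by
    rw [covariance_fun_sum_right' (fun v _ => hmem v) hZ, hA]
    refine sum_congr rfl fun v _ => ?_
    rw [covariance_const_mul_right, hc' v]
    ring
  have h2 : variance (fun ω => ∑ v ∈ F, c v * (W v.1 v.2 ω : ℝ)) μ ≤ K * A := by
    have hind : ∀ v w : ℕ × ℕ, v ≠ w →
        cov[fun ω => (W v.1 v.2 ω : ℝ), fun ω => (W w.1 w.2 ω : ℝ); μ] = 0 := by
      intro v w hvw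
      have h3 := hW.indep.indepFun hvw
      have h4 := h3.comp (φ := fun k : ℕ => (k : ℝ)) (ψ := fun k : ℕ => (k : ℝ))
        (measurable_of_countable _) (measurable_of_countable _)
      exact IndepFun.covariance_eq_zero h4 (bulk_memLp hW v.1 v.2) (bulk_memLp hW w.1 w.2)
    rw [variance_fun_sum' (fun v _ => hmem v), hA, Finset.mul_sum]
    refine sum_le_sum fun v hv => ?_
    rw [Finset.sum_eq_single v]
    · rw [covariance_self (hmem v).aestronglyMeasurable.aemeasurable, variance_const_mul]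
      have := hK v.1 v.2
      nlinarith [sq_nonneg (c v)]
    · intro w _ hw
      rw [covariance_const_mul_left, covariance_const_mul_right, hind v w (Ne.symm hw)]
      ring
    · intro h
      exact absurd hv h
  have hK0 : 0 ≤ K := (variance_nonneg _ _).trans (hK 0 0)
  have hV0 := variance_nonneg Z μ
  have hA0 : 0 ≤ A := by rw [hA]; positivity
  -- 0 ≤ Var (K Z - S)
  have h3 := variance_nonneg (fun ω => K * Z ω - ∑ v ∈ F, c v * (W v.1 v.2 ω : ℝ)) μ
  rw [variance_fun_sub (hZ.const_mul K) hS, variance_const_mul, covariance_const_mul_left, h1]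
    at h3
  rcases eq_or_lt_of_le hK0 with hK1 | hK1
  · -- K = 0
    have h5 : A = 0 := by
      rw [← hK1] at h2 h3
      -- all covariances vanish by Cauchy-Schwarz
      have h6 : ∀ v, c v = 0 := by
        intro v
        have h7 := hK v.1 v.2
        rw [← hK1] at h7
        have h8 := le_antisymm h7 (variance_nonneg _ _)
        have h9 := ae_eq_integral_of_variance_eq_zero (bulk_memLp hW v.1 v.2) h8
        rw [← hc' v]
        unfold covariance
        rw [integral_eq_zero_of_ae]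
        filter_upwards [h9] with ω hω
        rw [hω]
        simp
      rw [hA]
      simp [h6]
    rw [h5, ← hK1]
    simp
  · have h4 : 2 * K * A ≤ K ^ 2 * variance Z μ + K * A := by nlinarith
    have h5 : K * A ≤ K * (K * variance Z μ) := by nlinarith
    exact le_of_mul_le_mul_left h5 hK1

end prob

end Pool.Agent.W407.LP
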