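import Pool.Agent.W407.LP.SS1

/-!
# LP-SS, second part: influences
-/

set_option autoImplicit false

namespace Pool.Agent.W407.LP

open Pool.Agent.W533.LP MeasureTheory ProbabilityTheory Finset

/-- restriction to the box -/
def rs (n : ℕ) (W : ℕ → ℕ → ℕ) : V n → ℕ := fun v => W v.1 v.2

theorem Tc_rs (n : ℕ) (W : ℕ → ℕ → ℕ) : Tc (rs n W) = T W n n := by
  unfold Tc
  apply T_congr
  intro i hi j hj
  unfold ex rs
  rw [dif_pos ⟨hi, hj⟩]

theorem Tc_kill (n : ℕ) (W : ℕ → ℕ → ℕ) (v : V n) :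
    Tc (Function.update (rs n W) v 0) = T (sh 0 0 (kill v.1 v.2 W)) n n := by
  unfold Tc
  apply T_congr
  intro i hi j hj
  unfold ex sh kill
  rw [dif_pos ⟨hi, hj⟩]
  by_cases h : ((⟨i, hi⟩, ⟨j, hj⟩) : V n) = v
  · subst h
    rw [Function.update_self, if_pos ⟨rfl, rfl⟩]
  · rw [Function.update_of_ne h, if_neg]
    · rfl
    · rintro ⟨h1, h2⟩
      apply h
      apply Prod.ext
      · exact Fin.ext h1
      · exact Fin.ext h2

open Classical in
/-- the square of the weight if the slope below it is one -/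
noncomputable def bt (n : ℕ) (v : V n) (w : V n → ℕ) : ℝ :=
  if 1 ≤ w v ∧ sl w v (w v - 1) = 1 then (w v : ℝ) ^ 2 else 0

theorem bt_nonneg (n : ℕ) (v : V n) (w : V n → ℕ) : 0 ≤ bt n v w := by
  unfold bt
  split_ifs
  · positivity
  · exact le_rfl

theorem bt_le (n : ℕ) (v : V n) (w : V n → ℕ) : bt n v w ≤ (w v : ℝ) ^ 2 := by
  unfold bt
  split_ifs
  · exact le_rfl
  · positivity

theorem diff_bound (hS : DSl) (n : ℕ) (w : V n → ℕ) (v : V n) :
    0 ≤ (Tc w : ℝ) - Tc (Function.update w v 0) ∧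
    (Tc w : ℝ) - Tc (Function.update w v 0) ≤ bt n v w ∧
    ((Tc w : ℝ) - Tc (Function.update w v 0)) * w v ≤ bt n v w := by
  have hsum : (Tc w : ℝ) - Tc (Function.update w v 0) = ∑ l ∈ range (w v), sl w v l := by
    have h1 := Finset.sum_range_sub (fun l => (Tc (Function.update w v l) : ℝ)) (w v)
    unfold sl
    rw [h1, Function.update_eq_self]
  have hmono : Monotone (fun l => sl w v l) := monotone_nat_of_le_succ fun l => (hS n w v l).2
  have h0 : ∀ l, 0 ≤ sl w v l := by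
    intro l
    rcases (hS n w v l).1 with h | h <;> rw [h]
    norm_num
  have h1 : ∀ l, sl w v l ≤ 1 := by
    intro l
    rcases (hS n w v l).1 with h | h <;> rw [h]
    norm_num
  have hnn : 0 ≤ (Tc w : ℝ) - Tc (Function.update w v 0) := by
    rw [hsum]
    exact Finset.sum_nonneg fun l _ => h0 l
  refine ⟨hnn, ?_⟩
  by_cases h : 1 ≤ w v ∧ sl w v (w v - 1) = 1
  · have hle : (Tc w : ℝ) - Tc (Function.update w v 0) ≤ w v := by
      rw [hsum]
      refine (Finset.sum_le_sum fun l _ => h1 l).trans ?_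
      simp
    have hx : (1 : ℝ) ≤ w v := by exact_mod_cast h.1
    have hbt : bt n v w = (w v : ℝ) ^ 2 := by
      unfold bt
      rw [if_pos h]
    rw [hbt]
    constructor <;> nlinarith
  · have hz : (Tc w : ℝ) - Tc (Function.update w v 0) = 0 := by
      rw [hsum]
      apply Finset.sum_eq_zero
      intro l hl
      rw [Finset.mem_range] at hl
      have h2 : 1 ≤ w v := by omega
      have h3 : sl w v (w v - 1) = 0 := by
        rcases (hS n w v (w v - 1)).1 with h4 | h4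
        · exact h4
        · exact absurd ⟨h2, h4⟩ h
      have h4 : sl w v l ≤ sl w v (w v - 1) := hmono (by omega)
      rw [h3] at h4
      exact le_antisymm h4 (h0 l)
    rw [hz, zero_mul]
    exact ⟨bt_nonneg n v w, bt_nonneg n v w⟩

theorem pow_bd (n : ℕ) (hn : 1 ≤ n) (x : ℝ) (hx : 0 ≤ x) :
    x ^ 2 ≤ (n : ℝ) ^ (1 / 20 : ℝ) + x ^ 82 / (n : ℝ) ^ 2 := by
  have hn' : (0 : ℝ) < n := by exact_mod_cast (by omega : 0 < n)
  by_cases h : x ^ 80 ≤ (n : ℝ) ^ 2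
  · have h1 : (x ^ 80) ^ (1 / 40 : ℝ) ≤ ((n : ℝ) ^ 2) ^ (1 / 40 : ℝ) :=
      Real.rpow_le_rpow (by positivity) h (by norm_num)
    have h2 : (x ^ 80) ^ (1 / 40 : ℝ) = x ^ 2 := by
      rw [← Real.rpow_natCast x 80, ← Real.rpow_mul hx, ← Real.rpow_natCast x 2]
      norm_num
    have h3 : ((n : ℝ) ^ 2) ^ (1 / 40 : ℝ) = (n : ℝ) ^ (1 / 20 : ℝ) := by
      rw [← Real.rpow_natCast (n : ℝ) 2, ← Real.rpow_mul hn'.le]
      norm_num
    rw [h2, h3] at h1
    have h4 : 0 ≤ x ^ 82 / (n : ℝ) ^ 2 := by positivity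
    linarith
  · push Not at h
    have h1 : x ^ 2 ≤ x ^ 82 / (n : ℝ) ^ 2 := by
      rw [le_div_iff₀ (by positivity)]
      calc x ^ 2 * (n : ℝ) ^ 2 ≤ x ^ 2 * x ^ 80 := by gcongr
        _ = x ^ 82 := by ring
    have h2 : (0 : ℝ) ≤ (n : ℝ) ^ (1 / 20 : ℝ) := by positivity
    linarith

open Classical in
theorem level_bound (hG : DGeod) (n : ℕ) (hn : 1 ≤ n) (w : V n → ℕ) (k : ℕ) :
    ∑ v ∈ (univ : Finset (V n)).filter (fun v => lev v = k), bt n v w ≤
      (n : ℝ) ^ (1 / 20 : ℝ) + (∑ v : V n, (w v : ℝ) ^ 82) / (n : ℝ) ^ 2 := by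
  obtain ⟨Γ, hΓ⟩ := hG n hn
  have h1 : ∀ v : V n, lev v = k → v ≠ Γ w k → bt n v w = 0 := by
    intro v hv hne
    unfold bt
    rw [if_neg]
    rintro ⟨h2, h3⟩
    have h4 := hΓ.nec w v h2 h3
    rw [hv] at h4
    exact hne h4.symm
  have h2 : ∑ v ∈ (univ : Finset (V n)).filter (fun v => lev v = k), bt n v w ≤
      ∑ v ∈ (univ : Finset (V n)).filter (fun v => lev v = k),
        (if v = Γ w k then bt n (Γ w k) w else 0) := by
    refine Finset.sum_le_sum fun v hv => ?_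
    rw [Finset.mem_filter] at hv
    by_cases h : v = Γ w k
    · rw [if_pos h, ← h]
    · rw [if_neg h, h1 v hv.2 h]
  refine h2.trans ?_
  rw [Finset.sum_ite_eq']
  have h3 : (if Γ w k ∈ (univ : Finset (V n)).filter (fun v => lev v = k)
      then bt n (Γ w k) w else 0) ≤ (w (Γ w k) : ℝ) ^ 2 := by
    split_ifs
    · exact bt_le _ _ _
    · positivity
  refine h3.trans ((pow_bd n hn _ (Nat.cast_nonneg _)).trans ?_)
  gcongr
  exact Finset.single_le_sum (f := fun v => (w v : ℝ) ^ 82) (fun v _ => by positivity)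
    (Finset.mem_univ _)

section prob

variable {Ω : Type} [MeasurableSpace Ω]

/-- the influences -/
theorem cov_bound {μ : Measure Ω} {q : ℝ} {W : ℕ → ℕ → Ω → ℕ} (hW : Bulk μ q W) (hA : AMeas)
    (hS : DSl) (n : ℕ) (v : V n) (M : ℝ)
    (hM : ∫ ω, (W v.1 v.2 ω : ℝ) ∂μ ≤ M) :
    Integrable (fun ω => bt n v (rs n (fun i j => W i j ω))) μ ∧
    |cov[fun ω => (Tr W n n ω : ℝ), fun ω => (W v.1 v.2 ω : ℝ); μ]| ≤
      (1 + M) * ∫ ω, bt n v (rs n (fun i j => W i j ω)) ∂μ := by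
  have := hW.prob
  have hmW : ∀ i j, Measurable (W i j) := fun i j => hW.meas (i, j)
  have hX := bulk_memLp hW v.1 v.2
  have hT : MemLp (fun ω => (Tr W n n ω : ℝ)) 2 μ := Tr_memLp hW hA 0 0 n n
  have hT0 := kill_memLp hW hA 0 0 n n v.1 v.2
  have hrs : Measurable (fun ω => rs n (fun i j => W i j ω)) := by
    apply measurable_pi_lambda
    intro u
    exact hmW _ _
  have hbm : Measurable (fun ω => bt n v (rs n (fun i j => W i j ω))) :=
    (measurable_of_countable (bt n v)).comp hrs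
  have hbi : Integrable (fun ω => bt n v (rs n (fun i j => W i j ω))) μ := by
    have h1 : Integrable (fun ω => (W v.1 v.2 ω : ℝ) ^ 2) μ := hX.integrable_sq
    refine h1.mono' hbm.aestronglyMeasurable (Filter.Eventually.of_forall fun ω => ?_)
    rw [Real.norm_eq_abs, abs_of_nonneg (bt_nonneg _ _ _)]
    exact bt_le _ _ _
  refine ⟨hbi, ?_⟩
  obtain ⟨U, hU⟩ : ∃ U : Ω → ℝ, U = fun ω => (Tr W n n ω : ℝ) -
      (T (sh 0 0 (kill v.1 v.2 (fun i j => W i j ω))) n n : ℝ) := ⟨_, rfl⟩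
  have hUm : MemLp U 2 μ := by
    rw [hU]
    exact hT.sub hT0
  have hUb : ∀ ω, 0 ≤ U ω ∧ U ω ≤ bt n v (rs n (fun i j => W i j ω)) ∧
      U ω * (W v.1 v.2 ω : ℝ) ≤ bt n v (rs n (fun i j => W i j ω)) := by
    intro ω
    have h1 := diff_bound hS n (rs n (fun i j => W i j ω)) v
    rw [Tc_rs, Tc_kill] at h1
    rw [hU]
    exact h1
  have hcov : cov[fun ω => (Tr W n n ω : ℝ), fun ω => (W v.1 v.2 ω : ℝ); μ] =
      cov[U, fun ω => (W v.1 v.2 ω : ℝ); μ] := by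
    have h1 : (fun ω => (Tr W n n ω : ℝ)) =
        fun ω => U ω + (T (sh 0 0 (kill v.1 v.2 (fun i j => W i j ω))) n n : ℝ) := by
      funext ω
      rw [hU]
      ring
    rw [h1]
    have h2 := covariance_add_left hUm hT0 hX
    have h3 := (indep0 hW 0 0 n n v.1 v.2).covariance_eq_zero hT0 hX
    rw [h3, add_zero] at h2
    exact h2
  rw [hcov, covariance_eq_sub hUm hX]
  have hUX : Integrable (fun ω => U ω * (W v.1 v.2 ω : ℝ)) μ := hUm.integrable_mul hX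
  have e1 : 0 ≤ ∫ ω, U ω * (W v.1 v.2 ω : ℝ) ∂μ :=
    integral_nonneg fun ω => mul_nonneg (hUb ω).1 (Nat.cast_nonneg _)
  have e2 : ∫ ω, U ω * (W v.1 v.2 ω : ℝ) ∂μ ≤ ∫ ω, bt n v (rs n (fun i j => W i j ω)) ∂μ :=
    integral_mono hUX hbi fun ω => (hUb ω).2.2
  have e3 : 0 ≤ ∫ ω, U ω ∂μ := integral_nonneg fun ω => (hUb ω).1
  have e4 : ∫ ω, U ω ∂μ ≤ ∫ ω, bt n v (rs n (fun i j => W i j ω)) ∂μ :=
    integral_mono (hUm.integrable one_le_two) hbi fun ω => (hUb ω).2.1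
  have e5 : 0 ≤ ∫ ω, (W v.1 v.2 ω : ℝ) ∂μ := integral_nonneg fun ω => Nat.cast_nonneg _
  have e6 : (∫ ω, U ω ∂μ) * (∫ ω, (W v.1 v.2 ω : ℝ) ∂μ) ≤
      (∫ ω, bt n v (rs n (fun i j => W i j ω)) ∂μ) * M := by
    apply mul_le_mul e4 hM e5 (e3.trans e4)
  have e7 : 0 ≤ (∫ ω, U ω ∂μ) * (∫ ω, (W v.1 v.2 ω : ℝ) ∂μ) := mul_nonneg e3 e5
  have e8 : 0 ≤ (∫ ω, bt n v (rs n (fun i j => W i j ω)) ∂μ) * M :=
    mul_nonneg (e3.trans e4) (e5.trans hM)
  have e9 : ∫ ω, (U * fun ω => (W v.1 v.2 ω : ℝ)) ω ∂μ =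
      ∫ ω, U ω * (W v.1 v.2 ω : ℝ) ∂μ := rfl
  rw [e9, abs_le]
  constructor
  · nlinarith
  · nlinarith

/-- the influences on one antidiagonal -/
theorem cov_level {μ : Measure Ω} {q : ℝ} {W : ℕ → ℕ → Ω → ℕ} (hW : Bulk μ q W) (hA : AMeas)
    (hS : DSl) (hG : DGeod) (n : ℕ) (hn : 1 ≤ n) (M M' : ℝ)
    (hM : ∀ i j, ∫ ω, (W i j ω : ℝ) ∂μ ≤ M)
    (hM' : ∀ i j, Integrable (fun ω => (W i j ω : ℝ) ^ 82) μ ∧
      ∫ ω, (W i j ω : ℝ) ^ 82 ∂μ ≤ M') (k : ℕ) :
    ∑ v ∈ (range n ×ˢ range n).filter (fun v => v.1 + v.2 = k),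
      |cov[fun ω => (Tr W n n ω : ℝ), fun ω => (W v.1 v.2 ω : ℝ); μ]| ≤
      (1 + M) * ((n : ℝ) ^ (1 / 20 : ℝ) + M') := by
  classical
  have := hW.prob
  have hM0 : 0 ≤ M := (integral_nonneg fun ω => Nat.cast_nonneg _).trans (hM 0 0)
  have hn' : (0 : ℝ) < n := by exact_mod_cast (by omega : 0 < n)
  have h1 : ∑ v ∈ (range n ×ˢ range n).filter (fun v => v.1 + v.2 = k),
      |cov[fun ω => (Tr W n n ω : ℝ), fun ω => (W v.1 v.2 ω : ℝ); μ]| =
      ∑ v ∈ (univ : Finset (V n)).filter (fun v => lev v = k),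
        |cov[fun ω => (Tr W n n ω : ℝ), fun ω => (W v.1 v.2 ω : ℝ); μ]| := by
    rw [Finset.sum_filter, Finset.sum_filter, Finset.sum_product, Fintype.sum_prod_type,
      Finset.sum_range]
    refine Finset.sum_congr rfl fun i _ => ?_
    rw [Finset.sum_range]
    rfl
  rw [h1]
  have h2 : ∑ v ∈ (univ : Finset (V n)).filter (fun v => lev v = k),
        |cov[fun ω => (Tr W n n ω : ℝ), fun ω => (W v.1 v.2 ω : ℝ); μ]| ≤
      ∑ v ∈ (univ : Finset (V n)).filter (fun v => lev v = k),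
        (1 + M) * ∫ ω, bt n v (rs n (fun i j => W i j ω)) ∂μ :=
    Finset.sum_le_sum fun v _ => (cov_bound hW hA hS n v M (hM _ _)).2
  refine h2.trans ?_
  rw [← Finset.mul_sum, ← integral_finsetSum _
    (fun v _ => (cov_bound hW hA hS n v M (hM _ _)).1)]
  refine mul_le_mul_of_nonneg_left ?_ (by linarith)
  have hint2 : Integrable (fun ω => (n : ℝ) ^ (1 / 20 : ℝ) +
      (∑ v : V n, (W v.1 v.2 ω : ℝ) ^ 82) / (n : ℝ) ^ 2) μ := by
    refine (integrable_const _).add (Integrable.div_const ?_ _)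
    exact integrable_finsetSum _ fun v _ => (hM' _ _).1
  have h3 : ∫ ω, ∑ v ∈ (univ : Finset (V n)).filter (fun v => lev v = k),
        bt n v (rs n (fun i j => W i j ω)) ∂μ ≤
      ∫ ω, ((n : ℝ) ^ (1 / 20 : ℝ) +
        (∑ v : V n, (W v.1 v.2 ω : ℝ) ^ 82) / (n : ℝ) ^ 2) ∂μ := by
    refine integral_mono ?_ hint2 fun ω => ?_
    · exact integrable_finsetSum _ fun v _ => (cov_bound hW hA hS n v M (hM _ _)).1
    · exact level_bound hG n hn (rs n (fun i j => W i j ω)) k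
  refine h3.trans ?_
  rw [integral_add (integrable_const _) (Integrable.div_const
    (integrable_finsetSum _ fun v _ => (hM' _ _).1) _), integral_div,
    integral_finsetSum _ (fun v _ => (hM' _ _).1)]
  have h4 : ∑ v : V n, ∫ ω, (W v.1 v.2 ω : ℝ) ^ 82 ∂μ ≤ (n : ℝ) ^ 2 * M' := by
    refine (Finset.sum_le_sum fun v _ => (hM' _ _).2).trans ?_
    rw [Finset.sum_const, nsmul_eq_mul, Finset.card_univ, Fintype.card_prod, Fintype.card_fin]
    push_cast
    apply le_of_eq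
    ring
  have h5 : (∑ v : V n, ∫ ω, (W v.1 v.2 ω : ℝ) ^ 82 ∂μ) / (n : ℝ) ^ 2 ≤ M' := by
    rw [div_le_iff₀ (by positivity)]
    linarith
  have h6 : ∫ _ω : Ω, (n : ℝ) ^ (1 / 20 : ℝ) ∂μ = (n : ℝ) ^ (1 / 20 : ℝ) := by simp
  linarith

end prob

end Pool.Agent.W407.LP
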